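import Pool.Agent.U437.SS.FinS

set_option autoImplicit false

/-!
# Record prime gaps at subset sums, power sums of subsets and coefficients of split polynomials mod p

Write `f(x) = log x (log₂ x)² log₄ x / (log₃ x)²` for the record size of the prime-free intervals.  An
integer `n` is a centre modulo `p` if every integer within `κ f(p)` of `n` has a prime factor `≤ p ^ ε`;
so a centre in `(p ^ ε + κ f(p), p)` is in the middle of a record prime gap.

(1) Let `A` be any set of residues modulo the prime `p` and `k ≤ n = |A|` with `k (n - k) n ≥ p ^ (2 + ε)`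
(for `A = F_p` this allows all `k` between about `p ^ ε` and `p - p ^ ε`; for `k ≈ n/2` all sets with
`n ≥ p ^ (2/3 + ε)`).  For at least `C(n,k) p ^ (-ε)` of the subsets `B` of `A` with `k` elements all the
power sums `∑_{b ∈ B} b^j`, `1 ≤ j ≤ r`, are represented by centres in every box with sides `≥ p ^ (1 - δ)`.
(2) The same for the `r` coefficients of `∏_{b ∈ B} (X - b)` after the leading one.
(3) General form: vectors `d_i ∈ F_p^r`, `i ∈ s`, at most `m ≤ n/4` of which are on any affine hyperplane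
given by a non zero form, `n = |s| ≤ p^r` and `k (n - k) n ≥ m² p ^ (2 + ε)`, and any function
`Φ : F_p^r → F_p^q` with exponential sums at most `p ^ (r - ε)` at the non zero frequencies: for at least
`C(n,k) p ^ (-ε)` of the subsets `B` with `k` elements all coordinates of `Φ(∑_{i ∈ B} d_i)` are
represented by centres in every box with sides `≥ p ^ (1 - δ)`.

Proof: `∑_B e(h ∑_{i ∈ B} d_i / p)` is a coefficient of `∏ (1 + z e(h d_i / p))`, which on the circle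
`|z| = k/(n-k)` is at most `(1 + |z|)^n exp(-k (n-k) n / (16 m² p²))` because few of the fractions
`h d_i / p` are close to a given number; expansion of `Φ` in characters; Newton's identities, which
make the elementary symmetric functions a bijective function of the power sums; and the criterion of
helper825 (`Pool.Agent.N825.FC.crit`) for record gaps at families of residue vectors.
-/

namespace Pool.Agent.U437.Old.SubsetSumsAndSplitPolynomials

open Finset

/-- The record scale `f(x) = log x (log₂ x)² log₄ x / (log₃ x)²` (iterated natural logarithms). -/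
noncomputable def f (x : ℝ) : ℝ :=
  Real.log x * (Real.log (Real.log x)) ^ 2 * Real.log (Real.log (Real.log (Real.log x))) /
    (Real.log (Real.log (Real.log x))) ^ 2

/-- Every integer within `κ f(p)` of `n` has a prime factor at most `p ^ ε`. -/
def Centre (κ ε : ℝ) (p : ℕ) (n : ℤ) : Prop :=
  ∀ t : ℤ, |(t : ℝ) - n| ≤ κ * f p → ∃ l : ℕ, l.Prime ∧ (l : ℝ) ≤ (p : ℝ) ^ ε ∧ (l : ℤ) ∣ t

/-- For every box `∏ (M_j, M_j + L]` with `p ^ (1 - δ) ≤ L ≤ p` at least `|s| p ^ (-ε)` of the vectors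
`v_i`, `i ∈ s`, modulo `p` are represented by vectors of centres in the box. -/
def ManyCentres (κ ε δ : ℝ) (p : ℕ) {ι : Type} {r : ℕ} (s : Finset ι) (v : ι → Fin r → ZMod p) :
    Prop :=
  ∀ (M : Fin r → ℤ) (L : ℕ), (p : ℝ) ^ (1 - δ) ≤ L → L ≤ p →
    ∃ g ⊆ s, s.card * (p : ℝ) ^ (-ε) ≤ g.card ∧
      ∀ i ∈ g, ∀ j, ∃ n : ℤ, M j < n ∧ n ≤ M j + L ∧ (n : ZMod p) = v i j ∧ Centre κ ε p n

/-- **Record prime gaps at subset sums and at coefficients of split polynomials modulo primes.** -/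
theorem result (ε : ℝ) (hε : 0 < ε) (hε1 : ε ≤ 1) :
    (∀ r : ℕ, 1 ≤ r → ∃ κ : ℝ, 0 < κ ∧ ∃ δ : ℝ, 0 < δ ∧ ∃ P₀ : ℝ,
      ∀ (p : ℕ) [Fact p.Prime], P₀ ≤ p → ∀ (A : Finset (ZMod p)) (k : ℕ), k ≤ A.card →
      (p : ℝ) ^ (2 + ε) ≤ (k : ℝ) * ((A.card - k : ℕ) : ℝ) * A.card →
      ManyCentres κ ε δ p (powersetCard k A) (fun B (j : Fin r) => ∑ b ∈ B, b ^ ((j : ℕ) + 1))) ∧
    (∀ r : ℕ, 1 ≤ r → ∃ κ : ℝ, 0 < κ ∧ ∃ δ : ℝ, 0 < δ ∧ ∃ P₀ : ℝ,
      ∀ (p : ℕ) [Fact p.Prime], P₀ ≤ p → ∀ (A : Finset (ZMod p)) (k : ℕ), k ≤ A.card →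
      (p : ℝ) ^ (2 + ε) ≤ (k : ℝ) * ((A.card - k : ℕ) : ℝ) * A.card →
      r ≤ k ∧ ManyCentres κ ε δ p (powersetCard k A) (fun (B : Finset (ZMod p)) (j : Fin r) =>
        (∏ b ∈ B, (Polynomial.X - Polynomial.C b)).coeff (k - 1 - j))) ∧
    (∀ r q : ℕ, 1 ≤ q → ∃ κ : ℝ, 0 < κ ∧ ∃ δ : ℝ, 0 < δ ∧ ∃ P₀ : ℝ,
      ∀ (p : ℕ) [Fact p.Prime], P₀ ≤ p →
      ∀ (ι : Type) (s : Finset ι) (d : ι → Fin r → ZMod p) (m k : ℕ), s.card ≤ p ^ r → 0 < m →
      4 * m ≤ s.card → k ≤ s.card →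
      (∀ h : Fin r → ZMod p, h ≠ 0 → ∀ a, (s.filter fun i => ∑ j, h j * d i j = a).card ≤ m) →
      (m : ℝ) ^ 2 * (p : ℝ) ^ (2 + ε) ≤ (k : ℝ) * ((s.card - k : ℕ) : ℝ) * s.card →
      ∀ Φ : (Fin r → ZMod p) → Fin q → ZMod p,
      (∀ h : Fin q → ZMod p, h ≠ 0 →
        ‖∑ z, (ZMod.stdAddChar (∑ j, h j * Φ z j) : ℂ)‖ ≤ (p : ℝ) ^ (r - ε)) →
      ManyCentres κ ε δ p (powersetCard k s) (fun B => Φ (∑ i ∈ B, d i))) := by
  refine ⟨fun r hr => ?_, fun r hr => Pool.Agent.U437.SS.coeffs r hr ε hε hε1,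
    fun r q hq => Pool.Agent.U437.SS.general r q hq ε hε hε1⟩
  obtain ⟨κ, hκ, δ, hδ, P₀, h⟩ := Pool.Agent.U437.SS.powers r hr ε hε hε1
  exact ⟨κ, hκ, δ, hδ, P₀, fun p _ hp A k hk hbig =>
    h p hp A k hk hbig (fun y => y) (fun _ _ h => h)⟩

end Pool.Agent.U437.Old.SubsetSumsAndSplitPolynomials
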